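import Pool.Agent.helper97.IRO.Spec

set_option autoImplicit false

/-!
# Row iro:DF1: spreadability of the invariant colourings
-/

open MeasureTheory Pool.Agent.LOF

namespace Pool.Agent.IRO

/-- DF1. -/
theorem DF1 (h5 : G5_stmt) : DF1_stmt := by
  intro Ω _ μ _ hinv n d d' s B hB hd hd'
  obtain ⟨g, hg⟩ := h5 n (fun i => (d i).1) (fun i => (d' i).1)
    (fun i => ⟨(d i).2.1, (d i).2.2.1, (d i).2.2.2⟩)
    (fun i => ⟨(d' i).2.1, (d' i).2.2.1, (d' i).2.2.2⟩) hd hd'
  have hact : ∀ i, actD g⁻¹ (d' i) = d i := by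
    intro i
    apply Subtype.ext
    show g.1.symm (d' i).1 = (d i).1
    rw [OrderIso.symm_apply_eq]
    exact (hg i).symm
  have hT : Measurable (fun z : Ω × (D → Bool) => (z.1, actS g z.2)) := by
    refine measurable_fst.prodMk (measurable_pi_iff.2 fun y => ?_)
    exact (measurable_pi_apply _).comp measurable_snd
  have hA : MeasurableSet {z : Ω × (D → Bool) | z.1 ∈ B ∧ ∀ i, z.2 (d' i) = s i} := by
    have h1 : {z : Ω × (D → Bool) | z.1 ∈ B ∧ ∀ i, z.2 (d' i) = s i} =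
        Prod.fst ⁻¹' B ∩ ⋂ i, {z : Ω × (D → Bool) | z.2 (d' i) = s i} := by
      ext z
      simp only [Set.mem_inter_iff, Set.mem_preimage, Set.mem_iInter]
      rfl
    rw [h1]
    refine (measurable_fst hB).inter (MeasurableSet.iInter fun i => ?_)
    have h3 : Measurable (fun z : Ω × (D → Bool) => z.2 (d' i)) :=
      (measurable_pi_apply (d' i)).comp measurable_snd
    exact h3 (measurableSet_singleton (s i))
  have h2 := hinv g
  calc μ {z | z.1 ∈ B ∧ ∀ i, z.2 (d i) = s i}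
      = μ ((fun z : Ω × (D → Bool) => (z.1, actS g z.2)) ⁻¹'
          {z | z.1 ∈ B ∧ ∀ i, z.2 (d' i) = s i}) := by
        congr 1
        ext z
        show (z.1 ∈ B ∧ ∀ i, z.2 (d i) = s i) ↔ (z.1 ∈ B ∧ ∀ i, z.2 (actD g⁻¹ (d' i)) = s i)
        simp only [hact]
    _ = (μ.map (fun z : Ω × (D → Bool) => (z.1, actS g z.2)))
          {z | z.1 ∈ B ∧ ∀ i, z.2 (d' i) = s i} := (Measure.map_apply hT hA).symm
    _ = μ {z | z.1 ∈ B ∧ ∀ i, z.2 (d' i) = s i} := by rw [h2]

end Pool.Agent.IRO
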