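import Pool.Agent.helper97.IRO.Spec

set_option autoImplicit false

/-!
# Row iro:T8: the orders of right type are the orders `Ord q ε`
-/

open MeasureTheory Pool.Agent.LOF

namespace Pool.Agent.IRO

namespace T8aux

/-- the germ at `1` on the left -/
lemma germ_one (g : F) : ∃ e < 1, ∃ k : ℤ, ∀ z, e < z → z ≤ 1 → g.1 z = 1 + 2 ^ k * (z - 1) := by
  classical
  obtain ⟨g, h0, B, hB, hPL⟩ := g
  have hPL' : PLWith g (insert 0 B) := hPL.mono (Finset.subset_insert _ _)
  have hne : ((insert 0 B).filter fun b => b < 1).Nonempty :=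
    ⟨0, by simp only [Finset.mem_filter]; exact ⟨Finset.mem_insert_self _ _, zero_lt_one⟩⟩
  obtain ⟨b, hb, hmax⟩ := Finset.exists_max_image _ id hne
  simp only [Finset.mem_filter, id] at hb hmax
  obtain ⟨k, c, hk⟩ := hPL' b 1 hb.2 (by
    intro b' hb'
    by_cases h2 : 1 ≤ b'
    · exact Or.inr h2
    · push Not at h2
      exact Or.inl (hmax b' ⟨hb', h2⟩))
  have e1 := hk 1 ⟨hb.2.le, le_rfl⟩
  rw [h0 1 (fun h => lt_irrefl _ h.2)] at e1
  refine ⟨b, hb.2, k, fun z hz1 hz2 => ?_⟩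
  show g z = _
  rw [hk z ⟨hz1.le, hz2⟩]
  linear_combination -e1

/-- the elements that are the identity near `1` -/
def NI : Subgroup F where
  carrier := {g | ∃ e < 1, ∀ z, e < z → g.1 z = z}
  one_mem' := ⟨0, zero_lt_one, fun _ _ => rfl⟩
  mul_mem' := by
    rintro g h ⟨e, he, h1⟩ ⟨e', he', h2⟩
    refine ⟨max e e', max_lt he he', fun z hz => ?_⟩
    rw [max_lt_iff] at hz
    show g.1 (h.1 z) = z
    rw [h2 z hz.2, h1 z hz.1]
  inv_mem' := by
    rintro g ⟨e, he, h1⟩
    refine ⟨e, he, fun z hz => ?_⟩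
    show g.1.symm z = z
    rw [OrderIso.symm_apply_eq]
    exact (h1 z hz).symm

lemma comm_near (g h : F) : ∃ e < 1, ∀ z, e < z → g.1 (h.1 z) = h.1 (g.1 z) := by
  obtain ⟨e, he, k, hk⟩ := germ_one g
  obtain ⟨e', he', l, hl⟩ := germ_one h
  have f1 : g.1 1 = 1 := F.out g.2 (fun h => lt_irrefl _ h.2)
  have f2 : h.1 1 = 1 := F.out h.2 (fun h => lt_irrefl _ h.2)
  have s1 : g.1.symm e' < 1 := by
    rw [← g.1.lt_iff_lt, OrderIso.apply_symm_apply, f1]; exact he'
  have s2 : h.1.symm e < 1 := by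
    rw [← h.1.lt_iff_lt, OrderIso.apply_symm_apply, f2]; exact he
  refine ⟨max (max e e') (max (g.1.symm e') (h.1.symm e)), max_lt (max_lt he he') (max_lt s1 s2),
    fun z hz => ?_⟩
  rw [max_lt_iff, max_lt_iff, max_lt_iff] at hz
  obtain ⟨⟨z1, z2⟩, z3, z4⟩ := hz
  rcases le_or_gt z 1 with hz1 | hz1
  · have g1 : g.1 z ≤ 1 := by
      have := g.1.monotone hz1; rwa [f1] at this
    have g2 : h.1 z ≤ 1 := by
      have := h.1.monotone hz1; rwa [f2] at this
    have g3 : e' < g.1 z := by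
      have := g.1.strictMono z3; rwa [OrderIso.apply_symm_apply] at this
    have g4 : e < h.1 z := by
      have := h.1.strictMono z4; rwa [OrderIso.apply_symm_apply] at this
    rw [hk _ g4 g2, hl _ g3 g1, hk z z1 hz1, hl z z2 hz1]
    ring
  · have o1 : g.1 z = z := F.out g.2 (fun h => absurd h.2 (not_lt.2 hz1.le))
    have o2 : h.1 z = z := F.out h.2 (fun h => absurd h.2 (not_lt.2 hz1.le))
    rw [o2, o1, o2]

lemma comm_le : commutator F ≤ NI := by
  rw [commutator_def, Subgroup.commutator_le]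
  intro g _ h _
  obtain ⟨e, he, h1⟩ := comm_near g h
  have f1 : g.1 1 = 1 := F.out g.2 (fun h => lt_irrefl _ h.2)
  have f2 : h.1 1 = 1 := F.out h.2 (fun h => lt_irrefl _ h.2)
  refine ⟨h.1 (g.1 e), ?_, fun z hz => ?_⟩
  · have := h.1.strictMono (g.1.strictMono he)
    rwa [f1, f2] at this
  · show g.1 (h.1 (g.1.symm (h.1.symm z))) = z
    rw [h1]
    · rw [OrderIso.apply_symm_apply, OrderIso.apply_symm_apply]
    · rw [← g.1.lt_iff_lt, OrderIso.apply_symm_apply, ← h.1.lt_iff_lt,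
        OrderIso.apply_symm_apply]
      exact hz

/-- the restriction of the signs -/
def res (ε : DD → Bool) : D → Bool := fun d => ε ⟨d.1, d.2.1, d.2.2.1, d.2.2.2.le⟩

/-- the point `1` -/
def dOne : DD := ⟨1, by simpa using IsDyadic.int 1, zero_lt_one, le_rfl⟩

lemma ext_res (ε : DD → Bool) : ext (ε dOne) (res ε) = ε := by
  funext y
  unfold ext
  by_cases h : y.1 < 1
  · rw [dif_pos h]
    rfl
  · rw [dif_neg h]
    congr 1
    exact Subtype.ext (le_antisymm (not_lt.1 h) y.2.2.2)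

lemma ext_res_lt (s : Bool) (ε : DD → Bool) {y : DD} (h : y.1 < 1) : ext s (res ε) y = ε y := by
  unfold ext
  rw [dif_pos h]
  rfl

lemma pos_ext (s : Bool) (ε : DD → Bool) {g : F} (hg : g ∈ NI) :
    Pos (ext s (res ε)) g.1 ↔ Pos ε g.1 := by
  obtain ⟨e, he, h1⟩ := hg
  have key : ∀ y : DD, IsTop g.1 y.1 → y.1 < 1 := by
    intro y hy
    by_contra hcon
    have h2 : ∀ z, (e + 1) / 2 ≤ z → g.1 z = z := fun z hz => h1 z (by linarith)
    exact not_up_of_fix (show (e + 1) / 2 < y.1 by linarith) h2 hy.2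
  constructor
  · rintro ⟨y, hy1, hy2⟩
    rw [ext_res_lt s ε (key y hy1)] at hy2
    exact ⟨y, hy1, hy2⟩
  · rintro ⟨y, hy1, hy2⟩
    rw [← ext_res_lt s ε (key y hy1)] at hy2
    exact ⟨y, hy1, hy2⟩

section
variable {P : F → Prop}

/-- the cone on the abelianization -/
def QC (P : F → Prop) (x : Abelianization F) : Prop := x ≠ 1 ∧ ∃ g, Abelianization.of g = x ∧ P g

lemma of_eq_one {g : F} : Abelianization.of g = 1 ↔ g ∈ commutator F := by
  rw [← MonoidHom.mem_ker, Abelianization.ker_of]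

lemma key (h7 : ∀ g h : F, g ∉ commutator F → h ∈ commutator F → (P (g * h) ↔ P g))
    {g h : F} (hg : Abelianization.of g ≠ 1) (h2 : Abelianization.of h = Abelianization.of g) :
    P h ↔ P g := by
  have h3 := h7 g (g⁻¹ * h) (fun h => hg (of_eq_one.2 h))
    (of_eq_one.1 (by rw [map_mul, map_inv, h2, inv_mul_cancel]))
  rwa [mul_inv_cancel_left] at h3

lemma QC_of (h7 : ∀ g h : F, g ∉ commutator F → h ∈ commutator F → (P (g * h) ↔ P g))
    {g : F} (hg : Abelianization.of g ≠ 1) : QC P (Abelianization.of g) ↔ P g := by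
  constructor
  · rintro ⟨_, h, h2, h3⟩
    exact (key h7 hg h2).1 h3
  · intro h
    exact ⟨hg, g, rfl, h⟩

lemma cone_QC (hP : Cone P)
    (h7 : ∀ g h : F, g ∉ commutator F → h ∈ commutator F → (P (g * h) ↔ P g)) :
    Cone (QC P) := by
  have anti : ∀ x, QC P x → ¬ QC P x⁻¹ := by
    rintro x ⟨hx, g, hg, hPg⟩ ⟨_, h, hh, hPh⟩
    have h1 : Abelianization.of h = Abelianization.of g⁻¹ := by rw [hh, map_inv, hg]
    have h2 : Abelianization.of g⁻¹ ≠ 1 := by
      rw [map_inv, hg]; exact inv_ne_one.2 hx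
    exact hP.anti g hPg ((key h7 h2 h1).1 hPh)
  refine ⟨?_, ?_, anti⟩
  · rintro x y ⟨hx, g, hg, hPg⟩ hy
    have hy' := hy
    obtain ⟨hy1, h, hh, hPh⟩ := hy
    refine ⟨fun hxy => ?_, g * h, by rw [map_mul, hg, hh], hP.mul _ _ hPg hPh⟩
    refine anti x ⟨hx, g, hg, hPg⟩ ?_
    rw [eq_inv_of_mul_eq_one_right hxy] at hy'
    exact hy'
  · intro x hx
    obtain ⟨g, rfl⟩ : ∃ g, Abelianization.of g = x := by
      obtain ⟨g, hg⟩ := QuotientGroup.mk'_surjective (commutator F) x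
      exact ⟨g, hg⟩
    have hg : g ≠ 1 := by
      rintro rfl
      exact hx (map_one _)
    rcases hP.tri g hg with h | h
    · exact Or.inl ⟨hx, g, rfl, h⟩
    · exact Or.inr ⟨inv_ne_one.2 hx, g⁻¹, map_inv _ _, h⟩

end

end T8aux

open T8aux in
/-- T8: the orders of right type. -/
theorem T8 (h7a : T7a_stmt) (h7b : T7b_stmt) : T8_stmt := by
  intro r ⟨hc, hA, hor⟩
  have hP := cone_LO r
  rcases hor with h | h
  · obtain ⟨ε, hε⟩ := h7a (Pr r) hP hc hA h
    refine ⟨Sum.inl (ε dOne), res ε, Pr_inj fun g => ?_⟩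
    unfold Ord
    rw [Pr_ofCone, hε g]
    show _ ↔ Pos (ext (ε dOne) (res ε)) g.1
    rw [ext_res]
  · obtain ⟨h7, ε, hε⟩ := h7b (Pr r) hP hc hA h
    refine ⟨Sum.inr (ofCone (QC (Pr r)) (cone_QC hP h7)), res ε, Pr_inj fun g => ?_⟩
    unfold Ord
    rw [Pr_ofCone]
    show _ ↔ Pr (ofCone (QC (Pr r)) (cone_QC hP h7)) (Abelianization.of g) ∨
      (Abelianization.of g = 1 ∧ Pos (ext true (res ε)) g.1)
    rw [Pr_ofCone]
    by_cases hg : Abelianization.of g = 1
    · have hg' := of_eq_one.1 hg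
      rw [pos_ext true ε (comm_le hg'), ← hε g hg']
      constructor
      · intro h1
        exact Or.inr ⟨hg, h1⟩
      · rintro (h1 | h1)
        · exact absurd hg h1.1
        · exact h1.2
    · rw [QC_of h7 hg]
      constructor
      · intro h1
        exact Or.inl h1
      · rintro (h1 | h1)
        · exact h1
        · exact absurd h1.1 hg

end Pool.Agent.IRO
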